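import Pool.Agent.J6H11.TCS.Main

/-!
# Tally complete sets for `NP` when `P ≠ NP`

The question asks whether the existence of a sparse set, or of a set with sparse complement, that is
complete for `NP` under Turing reductions or under truth-table reductions, implies `P = NP`. We show
that none of the four implications has a relativizing proof, in a strong form: there are oracles
relative to which a tally set `T` and its complement, both in `UP ∩ coUP`, are complete even for
`PSPACE = UP ∩ coUP ≠ P` under truth-table reductions. The density of `T` can be prescribed (any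
unbounded nondecreasing `f` with `f n ≤ n`), no tally set of lower order is hard, and polynomial space
is contained in time `n ^ O(α n)` for an arbitrarily slowly growing unbounded function `α`.
-/

set_option autoImplicit false

namespace Pool.Agent.Results.MP_36ce85_lc.TallyCompleteSets

open Filter Pool.Agent.NPC Pool.Agent.H628R3.RO Pool.Agent.J6H49.OP Pool.Agent.J6H49.IP
open Pool.Agent.H620R2.Gauge (IsPSPACE)
open Pool.Agent.TH678.GC (join)
open Pool.Agent.J6H49.KW (tally)
open Pool.Agent.J6H11.TCS (TTRed)

/-- Let `α` and `f` be nondecreasing and unbounded, `f n ≤ n`, and let `C` be any oracle. There are an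
oracle `O` which contains `C` and a tally set `T` such that, relative to `O`,

* `O` is nearly collapsed with the function `α`,
* `T` and its complement are in `UP`,
* every language in polynomial space is in `UP` and in `coUP`, and it is reducible to `T`, and to the
  complement of `T`, by a polynomial-time truth-table reduction,
* some language is in `UP` and in `coUP` but not in `P`,
* `T` has at most `f n` elements of length at most `n`,
* if `U` is a tally set which is Turing-hard for `UP ∩ coUP`, then there is `c` such that `f n` is at
  most `c` times the number of the elements of `U` of length less than `n ^ c`, for infinitely many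
  `n`. -/
theorem result (α f : ℕ → ℕ) (hα : Monotone α) (hα' : Tendsto α atTop atTop)
    (hf : Monotone f) (hf' : Tendsto f atTop atTop) (hfn : ∀ n, f n ≤ n) (C : Oracle) :
    ∃ (O : Oracle) (T : ℕ → Bool), NearlyCollapsed α O ∧ Contains O C ∧
      IsUP O {x | tally T x = true} ∧ IsUP O {x | tally T x = true}ᶜ ∧
      (∀ L, IsPSPACE O L → IsUP O L ∧ IsUP O Lᶜ ∧
        TTRed O (tally T) L ∧ TTRed O (fun u => !tally T u) L) ∧
      (∃ L, IsUP O L ∧ IsUP O Lᶜ ∧ ¬ IsP O L) ∧
      (∀ n, ((Finset.range (n + 1)).filter fun m => T m = true).card ≤ f n) ∧
      ∀ U : ℕ → Bool, (∀ L, IsUP O L → IsUP O Lᶜ → IsP (join O (tally U)) L) →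
        ∃ c, ∃ᶠ n in atTop,
          f n ≤ c * ((Finset.range (n ^ c)).filter fun m => U m = true).card := by
  obtain ⟨O, T, h1, h2, h3, h4, h5, h6⟩ := Pool.Agent.J6H11.TCS.main hα hα' hf hf' hfn C
  refine ⟨O, T, h1, h2, h4 true, ?_, fun L hL => ⟨(h3 L hL).1, (h3 L hL).2.1, (h3 L hL).2.2,
    (h3 L hL).2.2.not⟩, ?_, h5, h6⟩
  · have e1 : {x : List Bool | tally T x = true}ᶜ = {x | tally T x = false} := by
      ext x
      simp
    rw [e1]
    exact h4 false
  · by_contra hcon
    push Not at hcon
    obtain ⟨c, hc⟩ := h6 (fun _ => false) fun L hL hL' =>
      Pool.Agent.J6H11.TCS.isP_join (hcon L hL hL')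
    obtain ⟨n, hn1, hn2⟩ := (hc.and_eventually (hf'.eventually_ge_atTop 1)).exists
    simp at hn1
    omega

end Pool.Agent.Results.MP_36ce85_lc.TallyCompleteSets
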